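import Pool.Agent.P.MP_5c5fd6_lc.StarTrade

namespace Pool.Agent.Results.MP_5c5fd6_lc.MixedTradeoff

open MeasureTheory Pool.Agent.P.MP_5c5fd6_lc.Star
open scoped NNReal

/-- Randomised search on `m` rays (the line is `m = 2`) with turning cost `d`: the exact set of
pairs `(c, B)` such that some mixed strategy finds every point `H` in expected time at most
`c |H| + B`. -/
theorem result : ∀ (m : ℕ) (d c B : ℝ), 2 ≤ m → 0 < d →
    ((∃ s : Measure (ℕ → Fin m × ℝ≥0), IsProbabilityMeasure s ∧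
      ∀ H : Fin m × ℝ≥0, ∫⁻ S, cost d S H ∂s ≤ ENNReal.ofReal (c * H.2 + B)) ↔
    ∃ r : ℝ, 1 < r ∧ 1 + 2 * (∑ i ∈ Finset.range m, r ^ i) / m / Real.log r ≤ c ∧
      d * ((∑ i ∈ Finset.range m, r ^ i) / m - 1) / Real.log r ≤ B) :=
  fun _ _ c B hm hd => trade hm hd c B

end Pool.Agent.Results.MP_5c5fd6_lc.MixedTradeoff
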