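import Pool.Agent.P.MP_5c5fd6_lc.StarMain

namespace Pool.Agent.Results.MP_5c5fd6_lc.MixedValue

open MeasureTheory Pool.Agent.P.MP_5c5fd6_lc.Star
open scoped NNReal

/-- The search game with turning cost `d` on `m` rays (the line is `m = 2`), with mixed strategies
for both players, has the value `min_{r > 1} 1 + ((2 + d) (1 + r + ... + r^(m-1)) / m - d) / log r`,
and the searcher has an optimal mixed strategy that visits the rays in cyclic order. -/
theorem result : ∀ (m : ℕ) (d : ℝ), 2 ≤ m → 0 < d →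
    (Measurable fun p : (ℕ → Fin m × ℝ≥0) × (Fin m × ℝ≥0) => cost d p.1 p.2) ∧
    ∃ V : ℝ, IsLeast ((fun r : ℝ =>
        1 + ((2 + d) * (∑ i ∈ Finset.range m, r ^ i) / m - d) / Real.log r) '' Set.Ioi 1) V ∧
      lowerVal m d = ENNReal.ofReal V ∧ upperVal m d = ENNReal.ofReal V ∧
      ∃ s : Measure (ℕ → Fin m × ℝ≥0), IsProbabilityMeasure s ∧
        (∀ᵐ S ∂s, ∀ k, ((S (k + 1)).1 : ℕ) = ((S k).1 + 1) % m ∧ 0 < (S k).2) ∧
        worst d s = ENNReal.ofReal V :=
  fun _ d hm hd => ⟨cost_meas d, value hm hd⟩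

end Pool.Agent.Results.MP_5c5fd6_lc.MixedValue
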