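import Pool.Agent.P.MP_5c5fd6_lc.Main

namespace Pool.Agent.Results.MP_5c5fd6_lc.Value

open Pool.Agent.P.MP_5c5fd6_lc

/-- The exact value of the linear search game with turning cost `d`:
`V̄(d) = 5 + d + 2 √(4 + 2d)`, which is strictly smaller than `9 + 2d`, for every `d > 0`. -/
theorem result : ∀ d : ℝ, 0 < d →
    Vbar d = ENNReal.ofReal (5 + d + 2 * Real.sqrt (4 + 2 * d)) ∧
      Vbar d < ENNReal.ofReal (9 + 2 * d) := by
  intro d hd
  refine ⟨Vbar_eq hd, ?_⟩
  rw [Vbar_eq hd]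
  exact (ENNReal.ofReal_lt_ofReal_iff (by linarith)).2 (val_lt hd)

end Pool.Agent.Results.MP_5c5fd6_lc.Value
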